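import Pool.Agent.Run7.h625.SQ.Gap2
import Pool.Agent.Run7.h625.SQ.Fin

/-!
# Approximation of Clique in counting logic with small oracles: `k / ρ(k)` variables are needed

The sentences may depend on the parameter `k` and on the number `n` of vertices in any way. They have
`w` variables, conjunctions of any size, counting quantifiers, and all Lindstroem quantifiers on
small interpreted structures: a sentence may interpret a structure in the graph, with tuples as
elements, modulo a definable equivalence relation, with parameters, arbitrarily nested, and it may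
ask any question about it, if it has at most `n ^ β` elements (`Query`, `Interp`, `Interp.Defines`
and `Def` in `Pool/Agent/Run7/h625/SQ/Defs.lean`). Fixed-point logic with counting is contained in
this logic for constant `w`, also with oracles for all problems of size `f(k) * log n`, for example
for the satisfiability problem of formulas with `f(k) * log n` variables.

For every admissible ratio `ρ` the number of variables which are needed for the approximation of
Clique with ratio `ρ` for the parameter `k` is `k / ρ(k)` up to a constant factor. In particular there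
is no approximation, with any ratio, if the number of variables is bounded; here the exponent of the
size of the structures depends on `k`.

The lower bound is the gap in `Pool/Agent/Run7/h625/SQ/Gap2.lean`: the graphs consist of `k` parts,
the vertices of which are the satisfying assignments of many equations of an expanding system of
linear equations modulo two, and in the second graph a clique with more than a constant times `w + 1`
vertices would satisfy too many of the equations.
-/

set_option autoImplicit false

namespace Pool.Agent.Results.MP_1fcf49_lc.VariablesForApproximation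

open Filter Run7.h625.SQ

/-- Admissible ratios for a maximisation problem: `k / ρ k` is nondecreasing and unbounded. -/
def Admissible (ρ : ℕ → ℝ) : Prop :=
  (∀ k, 1 ≤ ρ k) ∧ Monotone (fun k : ℕ => (k : ℝ) / ρ k) ∧ ∀ B : ℝ, ∃ k : ℕ, B ≤ (k : ℝ) / ρ k

/-- On graphs with `n` vertices the sentence `q` holds if there is a clique with `k` vertices and
fails if all cliques have less than `k / ρ k` vertices. -/
def Approximates (ρ : ℕ → ℝ) (k n : ℕ) (q : Query Empty) : Prop :=
  ∀ G : SimpleGraph (Fin n), (¬ G.CliqueFree k → q (Fin n) G Empty.elim) ∧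
    ((∀ L : Finset (Fin n), G.IsClique L → (L.card : ℝ) < k / ρ k) → ¬ q (Fin n) G Empty.elim)

/-- There is a constant `C` with the following properties, for every admissible ratio `ρ`. (1) If
`C (w + 1) < k / ρ k` then for some `β > 0` and all large `n` no sentence with `w` variables
approximates Clique with ratio `ρ` for the parameter `k` on graphs with `n` vertices, even with all
Lindstroem quantifiers for interpreted structures with at most `n ^ β` elements. (2) There is such a
sentence with `⌈k / ρ k⌉` variables, for all `k` and `n`. (3) For every `w` this holds for all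
large `k`: bounded numbers of variables do not suffice for any ratio. -/
theorem result : ∃ C : ℕ, ∀ ρ : ℕ → ℝ, Admissible ρ →
    (∀ k w : ℕ, (C : ℝ) * (w + 1) < k / ρ k → ∃ β : ℝ, 0 < β ∧ ∀ᶠ n : ℕ in atTop,
      ∀ s : ℕ → ℕ, (s n : ℝ) ≤ (n : ℝ) ^ β → ∀ q, Def w s Empty q → ¬ Approximates ρ k n q) ∧
    (∀ (k : ℕ) (s : ℕ → ℕ), ∃ q, Def ⌈(k : ℝ) / ρ k⌉₊ s Empty q ∧ ∀ n, Approximates ρ k n q) ∧
    (∀ w : ℕ, ∃ k₀ : ℕ, ∀ k : ℕ, k₀ ≤ k → ∃ β : ℝ, 0 < β ∧ ∀ᶠ n : ℕ in atTop,
      ∀ s : ℕ → ℕ, (s n : ℝ) ≤ (n : ℝ) ^ β → ∀ q, Def w s Empty q → ¬ Approximates ρ k n q) := by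
  obtain ⟨C, hC⟩ := total_gap
  refine ⟨C, fun ρ hρ => ?_⟩
  have h1 : ∀ k w : ℕ, (C : ℝ) * (w + 1) < k / ρ k → ∃ β : ℝ, 0 < β ∧ ∀ᶠ n : ℕ in atTop,
      ∀ s : ℕ → ℕ, (s n : ℝ) ≤ (n : ℝ) ^ β → ∀ q, Def w s Empty q → ¬ Approximates ρ k n q := by
    intro k w hkw
    obtain ⟨β, hβ, h⟩ := hC w k
    refine ⟨β, hβ, ?_⟩
    filter_upwards [h] with n hn
    obtain ⟨G, H, hG, hH, hGH⟩ := hn
    intro s hs q hq hap
    have e1 := (hap G).1 hG
    have e2 := (hGH s hs q hq).1 e1
    refine (hap H).2 (fun L hL => lt_of_le_of_lt ?_ hkw) e2
    exact_mod_cast hH L hL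
  refine ⟨h1, ?_, ?_⟩
  · intro k s
    refine ⟨HasClique ⌈(k : ℝ) / ρ k⌉₊, def_clique _ s, fun n G => ⟨fun hG hcf => ?_, fun hL hcf => ?_⟩⟩
    · apply hG
      refine hcf.mono ?_
      rw [Nat.ceil_le]
      exact div_le_self (Nat.cast_nonneg _) (hρ.1 k)
    · apply hcf
      intro L hL'
      have h2 := hL L hL'.isClique
      rw [hL'.card_eq] at h2
      exact absurd (Nat.le_ceil ((k : ℝ) / ρ k)) (not_le.2 h2)
  · intro w
    obtain ⟨k₀, hk₀⟩ := hρ.2.2 ((C : ℝ) * (w + 1) + 1)
    refine ⟨k₀, fun k hk => h1 k w ?_⟩
    have h2 : (k₀ : ℝ) / ρ k₀ ≤ (k : ℝ) / ρ k := hρ.2.1 hk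
    linarith

end Pool.Agent.Results.MP_1fcf49_lc.VariablesForApproximation
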